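import Pool.Agent.Mg.F1392dc.G2dd2d2
import Pool.Agent.Mg.F1392dc.G6496f6

/-! The case `k = 2`: the exact set of large sizes `m` for which the assertion holds. -/

namespace Pool.Agent.Results.MP_1392dc_co.ExceptionalSizes

open W5

theorem result : ∃ m₀ : ℕ, ∀ T : Set ℕ, 5 ∈ T → (∀ t ∈ T, 5 ≤ t) → ∀ m : ℕ, m₀ ≤ m →
    ((∀ (V : Type) [Fintype V] (G : SimpleGraph V), (∀ v, ∃ w, G.Adj v w) →
        (∀ t ∈ T, ¬ (wheel (t - 1)).IsContained G) → G.edgeSet.ncard = m →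
        lam G ≤ (1 + √(4 * (m : ℝ) - 3)) / 2 ∧
          (lam G = (1 + √(4 * (m : ℝ) - 3)) / 2 ↔
            ∃ s : ℕ, m = 2 * s + 1 ∧ Nonempty (G ≃g split 2 s))) ↔
      ¬ ∃ p q : ℕ,
        (m = 4 * p * q + p + q ∧ ((p : ℤ) - q) ^ 2 + 1 ≤ 2 * (p + q)) ∨
        (m = 4 * p * q + p + 3 * q ∧
          (((p : ℤ) - q) ^ 2 ≤ 2 * p ∨ (((p : ℤ) - q) ^ 2 = 2 * p + 1 ∧ p < q))) ∨
        (m + 1 = 4 * p * q + p + q ∧ |(p : ℤ) - q| ≤ 4) ∨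
        (m = (2 * p + 1) * (2 * q + 1) + p + q ∧ |(p : ℤ) - q| ≤ 1) ∨
        (m = 4 * p * q + p + q + 1 ∧ |(p : ℤ) - q| ≤ 1)) :=
  ⟨10 ^ 72, fun T h5 hT m hm =>
    fin_all edS
      (upS perS edS (coreS perS edS opS) (lightS nbS (light1S nbS kstS)) (heavyS nbS heavy1S)
        (xbS nbS) cntS (tinS cntS) ari1S ari2S muS nu1S (nu2S opS cntS) (bookS perS))
      cntS ari3S (bookS perS) (lowS perS) wfS conS (penS perS) T h5 hT m hm⟩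

end Pool.Agent.Results.MP_1392dc_co.ExceptionalSizes
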