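import Pool.Agent.MP_1392dc_co.RA
import Pool.Agent.MP_1392dc_co.RB
import Pool.Agent.MP_1392dc_co.RC
import Pool.Agent.MP_1392dc_co.RD
import Pool.Agent.MP_1392dc_co.TA
import Pool.Agent.MP_1392dc_co.TB
import Pool.Agent.MP_1392dc_co.TUp

/-! For `k ≥ 3` and `m = C(k,2) + k q + r` with `1 ≤ r < k` and `m ≥ 10 ^ 68 k ^ 2`: the graphs of
largest spectral radius among the graphs with `m` edges and no wheel `W_(2k+1)`. -/

namespace Pool.Agent.Results.MP_1392dc_co.OtherResidues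

open W5

theorem result (k q r m : ℕ) (hk : 3 ≤ k) (hr : 1 ≤ r) (hr' : r < k)
    (hm : m = k.choose 2 + k * q + r) (hb : 10 ^ 68 * k ^ 2 ≤ m)
    (T : Set ℕ) (hT : 2 * k + 1 ∈ T) (hT' : ∀ t ∈ T, 2 * k + 1 ≤ t) :
    ((∀ v, ∃ w, (sp k q r false).Adj v w) ∧
      (∀ t ∈ T, ¬ (wheel (t - 1)).IsContained (sp k q r false)) ∧
      (sp k q r false).edgeSet.ncard = m) ∧
    ((∀ v, ∃ w, (sp k q (r - 1) true).Adj v w) ∧
      (∀ t ∈ T, ¬ (wheel (t - 1)).IsContained (sp k q (r - 1) true)) ∧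
      (sp k q (r - 1) true).edgeSet.ncard = m) ∧
    (∀ (V : Type) [Fintype V] (G : SimpleGraph V), (∀ v, ∃ w, G.Adj v w) →
      (∀ t ∈ T, ¬ (wheel (t - 1)).IsContained G) → G.edgeSet.ncard = m →
      lam G ≤ max (lam (sp k q r false)) (lam (sp k q (r - 1) true)) ∧
        (lam G = max (lam (sp k q r false)) (lam (sp k q (r - 1) true)) →
          Nonempty (G ≃g sp k q r false) ∨ Nonempty (G ≃g sp k q (r - 1) true))) ∧
    (5 * k ^ 4 ≤ (2 * r - 1) ^ 2 * m → lam (sp k q (r - 1) true) < lam (sp k q r false)) ∧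
    ((2 * r - 1) ^ 2 * m ≤ 3 * k ^ 4 → lam (sp k q r false) < lam (sp k q (r - 1) true)) := by
  have hW := WR.wheelS
  have hP := WR.partS
  have hS := WR.stanS
  have hD := WR.wdS (WR.cycS hW)
  have hV := WR.svS
  have hC := WR.cntS hP
  have hM := WR.mainS WR.idS hV hC WR.cnt2S
  have hX := WR.xS hV
  have hU := WR.uniS hV hC WR.cnt2S hM hX
  obtain ⟨a1, ⟨a2, a3⟩, ⟨a4, a5⟩, a6, a7⟩ := WR.resid WR.coreS
    (WR.lightS (WR.cy2S hW) (WR.light1S (WR.kstS hD))) WR.xbS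
    (WR.lfinS hP (WR.cy3S hW) (WR.ldenS hP WR.lariS) WR.lpairS)
    (WR.h2S hP (WR.h1S hD)) WR.h3S (WR.h4S (WR.cy2S hW)) (WR.hstrS hP hS) WR.passS
    (WR.eigS hP hS) hV hC WR.cnt2S hM hX hU
    (WR.gam2S hC (WR.richS hC (WR.rich1S hW)) (WR.gam1S hV hX hU)) WR.ariS
    (WR.excS hC WR.iso2S) WR.dicS WR.spS WR.spFreeS WR.spLowS WR.lamS k q r m hk hr hr' hm hb
  have fr : ∀ s e, ∀ t ∈ T, ¬ (wheel (t - 1)).IsContained (sp k q s e) := fun s e t ht =>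
    WR.spFreeS k q s e hk _ (by have := hT' t ht; omega)
  exact ⟨⟨a2, fr _ _, a3⟩, ⟨a4, fr _ _, a5⟩, fun V _ G hni hw hG => a1 V G hni (hw _ hT) hG, a6, a7⟩

end Pool.Agent.Results.MP_1392dc_co.OtherResidues
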