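import Pool.Agent.MP_1392dc_co.RA
import Pool.Agent.MP_1392dc_co.RB
import Pool.Agent.MP_1392dc_co.RC
import Pool.Agent.MP_1392dc_co.RD

/-! For `k ≥ 3` the assertion holds from a threshold on, and the least threshold has order
exactly `k ^ 2`. -/

namespace Pool.Agent.Results.MP_1392dc_co.QuadraticThreshold

open W5

theorem result (k : ℕ) (hk : 3 ≤ k) (T : Set ℕ) (hT : 2 * k + 1 ∈ T)
    (hT' : ∀ t ∈ T, 2 * k + 1 ≤ t) :
    ∃ m₀ : ℕ, IsLeast {M : ℕ | ∀ m : ℕ, M ≤ m →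
        ∀ (V : Type) [Fintype V] (G : SimpleGraph V), (∀ v, ∃ w, G.Adj v w) →
          (∀ t ∈ T, ¬ (wheel (t - 1)).IsContained G) → G.edgeSet.ncard = m →
          lam G ≤ ((k : ℝ) - 1 + √(4 * (m : ℝ) - (k : ℝ) ^ 2 + 1)) / 2 ∧
            (lam G = ((k : ℝ) - 1 + √(4 * (m : ℝ) - (k : ℝ) ^ 2 + 1)) / 2 ↔
              ∃ s : ℕ, 0 < s ∧ (s : ℝ) = (m : ℝ) / k - ((k : ℝ) - 1) / 2 ∧
                Nonempty (G ≃g split k s))} m₀ ∧
      5 * k ^ 2 ≤ 2 * m₀ + 3 * k ∧ m₀ ≤ 10 ^ 68 * k ^ 2 := by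
  classical
  have hW := WR.wheelS
  have hD := WR.wdS (WR.cycS hW)
  have up := WR.upper WR.coreS (WR.lightS (WR.cy2S hW) (WR.light1S (WR.kstS hD))) WR.xbS
    (WR.lfinS WR.partS (WR.cy3S hW) (WR.ldenS WR.partS WR.lariS) WR.lpairS)
    (WR.h2S WR.partS (WR.h1S hD)) WR.h3S (WR.h4S (WR.cy2S hW)) (WR.hfinS WR.partS WR.stanS)
    WR.isoS WR.splitS k
  set S : Set ℕ := {M : ℕ | ∀ m : ℕ, M ≤ m →
        ∀ (V : Type) [Fintype V] (G : SimpleGraph V), (∀ v, ∃ w, G.Adj v w) →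
          (∀ t ∈ T, ¬ (wheel (t - 1)).IsContained G) → G.edgeSet.ncard = m →
          lam G ≤ ((k : ℝ) - 1 + √(4 * (m : ℝ) - (k : ℝ) ^ 2 + 1)) / 2 ∧
            (lam G = ((k : ℝ) - 1 + √(4 * (m : ℝ) - (k : ℝ) ^ 2 + 1)) / 2 ↔
              ∃ s : ℕ, 0 < s ∧ (s : ℝ) = (m : ℝ) / k - ((k : ℝ) - 1) / 2 ∧
                Nonempty (G ≃g split k s))} with hS
  have h1 : 10 ^ 68 * k ^ 2 ∈ S := fun m hm V _ G hni hw hG =>
    up m hk hm V G hni (hw _ hT) hG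
  have h2 : IsLeast S (sInf S) := ⟨Nat.sInf_mem ⟨_, h1⟩, fun b hb => Nat.sInf_le hb⟩
  refine ⟨sInf S, h2, ?_, h2.2 h1⟩
  by_contra hlt
  push Not at hlt
  have hk2 : 3 * k ≤ k ^ 2 := by nlinarith
  refine WR.lowS k (max (sInf S) (2 * k ^ 2 - k)) (by omega) (by omega) (by omega) ?_
  intro V _ G hni hw hG
  exact h2.1 _ (le_max_left _ _) V G hni (fun t ht => hw t (hT' t ht)) hG

end Pool.Agent.Results.MP_1392dc_co.QuadraticThreshold
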